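import Mathlib

set_option autoImplicit false

/-!
# Antisymmetric arrays with rows in the ranges of symmetric projections

`E j` (`j : ι`, `|ι| = d²`) are symmetric idempotent real matrices whose entries form an (almost)
symmetric array of order three. The space of the antisymmetric arrays `τ` whose rows satisfy
`E j (τ j) = τ j` has dimension at most `3 (d - 1)²`.
-/

namespace Pool.Agent.V11279.DF

open Finset Matrix

structure Slices {ι : Type*} [Fintype ι] (d : ℝ) (E : ι → ι → ι → ℝ) : Prop where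
  card : (Fintype.card ι : ℝ) = d ^ 2
  symm : ∀ j k l, E j k l = E j l k
  idem : ∀ j k l, ∑ m, E j k m * E j m l = E j k l
  diag : ∀ j k, j ≠ k → E j k k = 2 / (d + 1)
  zero : ∀ j k, E j j k = 0
  ones : ∀ j k, ∑ l, E j k l = 0
  perm : ∀ j k l, j ≠ k → k ≠ l → j ≠ l → E j k l = E k j l

variable {ι : Type*} [Fintype ι] [DecidableEq ι] {d : ℝ} {E : ι → ι → ι → ℝ}

def bigE (E : ι → ι → ι → ℝ) : Matrix (ι × ι) (ι × ι) ℝ :=
  fun p q => if p.1 = q.1 then E p.1 p.2 q.2 else 0

def bigS (E : ι → ι → ι → ℝ) : Matrix (ι × ι) (ι × ι) ℝ :=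
  fun p q => E p.1 p.2 q.1 * E q.1 p.1 q.2

def bigK (E : ι → ι → ι → ℝ) : Matrix (ι × ι) ι ℝ := fun p l => E p.1 l p.2

theorem bigE_mul {κ : Type*} (E : ι → ι → ι → ℝ) (X : Matrix (ι × ι) κ ℝ) (p : ι × ι) (r : κ) :
    (bigE E * X) p r = ∑ m, E p.1 p.2 m * X (p.1, m) r := by
  rw [Matrix.mul_apply, Fintype.sum_prod_type]
  rw [Finset.sum_eq_single p.1]
  · refine sum_congr rfl fun m _ => ?_
    simp [bigE]
  · intro b _ hb
    refine sum_eq_zero fun m _ => ?_
    simp [bigE, hb.symm]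
  · intro h
    exact absurd (mem_univ _) h

theorem bigS_mul {κ : Type*} (E : ι → ι → ι → ℝ) (X : Matrix (ι × ι) κ ℝ) (p : ι × ι) (r : κ) :
    (bigS E * X) p r = ∑ m, E p.1 p.2 m * ∑ n, E m p.1 n * X (m, n) r := by
  rw [Matrix.mul_apply, Fintype.sum_prod_type]
  refine sum_congr rfl fun m _ => ?_
  rw [mul_sum]
  refine sum_congr rfl fun n _ => ?_
  simp only [bigS]
  ring

section
variable (h : Slices d E)
include h

theorem E_E : bigE E * bigE E = bigE E := by
  ext p q
  rw [bigE_mul]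
  by_cases hpq : p.1 = q.1
  · simp only [bigE, hpq, if_true]
    exact h.idem _ _ _
  · simp [bigE, hpq]

theorem E_S : bigE E * bigS E = bigS E := by
  ext p q
  rw [bigE_mul]
  simp only [bigS]
  rw [← h.idem p.1 p.2 q.1, sum_mul]
  refine sum_congr rfl fun m _ => ?_
  ring

theorem E_K : bigE E * bigK E = bigK E := by
  ext p l
  rw [bigE_mul]
  simp only [bigK]
  rw [h.symm p.1 l p.2, ← h.idem p.1 p.2 l]
  refine sum_congr rfl fun m _ => ?_
  rw [h.symm p.1 l m]

theorem Et : (bigE E)ᵀ = bigE E := by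
  ext p q
  simp only [Matrix.transpose_apply, bigE]
  by_cases hpq : p.1 = q.1
  · rw [if_pos hpq, if_pos hpq.symm, hpq, h.symm]
  · rw [if_neg hpq, if_neg (Ne.symm hpq)]

theorem St : (bigS E)ᵀ = bigS E := by
  ext p q
  simp only [Matrix.transpose_apply, bigS]
  rw [h.symm q.1 q.2 p.1, h.symm p.1 q.1 p.2]
  ring

theorem rel (j m l : ι) : E m l j = E j l m + 2 / (d + 1) *
    ((if l = j then 1 else 0) - (if l = m then 1 else 0)) := by
  by_cases hjm : j = m
  · subst hjm; ring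
  by_cases hlj : l = j
  · subst hlj
    rw [if_pos rfl, if_neg hjm, h.diag m l (Ne.symm hjm), h.zero]
    ring
  by_cases hlm : l = m
  · subst hlm
    rw [if_neg hlj, if_pos rfl, h.zero, h.diag j l hjm]
    ring
  rw [if_neg hlj, if_neg hlm, h.symm m l j, h.perm m j l (Ne.symm hjm) (Ne.symm hlj) (Ne.symm hlm),
    h.symm j m l]
  ring

theorem S_K (hd : d + 1 ≠ 0) : bigS E * bigK E = ((d - 1) / (d + 1)) • bigK E := by
  ext p l
  rw [bigS_mul]
  simp only [bigK, Matrix.smul_apply, smul_eq_mul]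
  have e1 : ∀ m, ∑ n, E m p.1 n * E m l n = E p.1 l m + 2 / (d + 1) *
      ((if l = p.1 then 1 else 0) - (if l = m then 1 else 0)) := by
    intro m
    rw [← rel h p.1 m l, h.symm m l p.1, ← h.idem m p.1 l]
    refine sum_congr rfl fun n _ => ?_
    rw [h.symm m l n]
  rw [sum_congr rfl fun m _ => by rw [e1 m]]
  simp only [mul_add, sum_add_distrib, mul_sub, sum_sub_distrib]
  have e2 : ∑ m, E p.1 p.2 m * E p.1 l m = E p.1 l p.2 := by
    rw [h.symm p.1 l p.2, ← h.idem p.1 p.2 l]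
    refine sum_congr rfl fun m _ => ?_
    rw [h.symm p.1 l m]
  have e3 : ∑ m, E p.1 p.2 m * (2 / (d + 1) * (if l = p.1 then 1 else 0)) = 0 := by
    rw [← sum_mul, h.ones, zero_mul]
  have e4 : ∑ m, E p.1 p.2 m * (2 / (d + 1) * (if l = m then 1 else 0)) =
      2 / (d + 1) * E p.1 l p.2 := by
    rw [Finset.sum_eq_single l]
    · rw [if_pos rfl, h.symm p.1 p.2 l]; ring
    · intro b _ hb; rw [if_neg (Ne.symm hb)]; ring
    · intro hh; exact absurd (mem_univ _) hh
  rw [e2, e3, e4]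
  field_simp
  ring

theorem tr_S : (bigS E).trace = 0 := by
  rw [Matrix.trace]
  refine sum_eq_zero fun p _ => ?_
  simp only [Matrix.diag_apply, bigS]
  rw [h.symm p.1 p.2 p.1, h.zero, zero_mul]

theorem tr_E : (bigE E).trace = d ^ 2 * (d ^ 2 - 1) * (2 / (d + 1)) := by
  rw [Matrix.trace, Fintype.sum_prod_type]
  have e1 : ∀ j, ∑ k, (bigE E).diag (j, k) = (d ^ 2 - 1) * (2 / (d + 1)) := by
    intro j
    have e2 : ∀ k, (bigE E).diag (j, k) = if k = j then 0 else 2 / (d + 1) := by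
      intro k
      simp only [Matrix.diag_apply, bigE, if_true]
      by_cases hk : k = j
      · subst hk; rw [if_pos rfl, h.zero]
      · rw [if_neg hk, h.diag j k (Ne.symm hk)]
    rw [sum_congr rfl fun k _ => e2 k]
    have e3 : ∀ k : ι, (if k = j then (0 : ℝ) else 2 / (d + 1)) =
        2 / (d + 1) - if k = j then 2 / (d + 1) else 0 := by
      intro k; split_ifs <;> ring
    rw [sum_congr rfl fun k _ => e3 k, sum_sub_distrib, sum_const, card_univ,
      Finset.sum_ite_eq' univ j, if_pos (mem_univ _), nsmul_eq_mul, h.card]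
    ring
  rw [sum_congr rfl fun j _ => e1 j, sum_const, card_univ, nsmul_eq_mul, h.card]
  ring

theorem tr_SS : (bigS E * bigS E).trace = d ^ 2 * (d ^ 2 - 1) * (4 / (d + 1) ^ 2) := by
  have e0 : (bigS E * bigS E).trace =
      ∑ j, ∑ j', (∑ k, E j k j' * E j k j') * (∑ k', E j' j k' * E j' j k') := by
    rw [Matrix.trace, Fintype.sum_prod_type]
    refine sum_congr rfl fun j _ => ?_
    simp only [Matrix.diag_apply, Matrix.mul_apply, Fintype.sum_prod_type]
    rw [sum_comm]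
    refine sum_congr rfl fun j' _ => ?_
    rw [sum_mul_sum]
    refine sum_congr rfl fun k _ => sum_congr rfl fun k' _ => ?_
    simp only [bigS]
    rw [h.symm j' k' j, h.symm j j' k]
    ring
  have e1 : ∀ j j', (∑ k, E j k j' * E j k j') * (∑ k', E j' j k' * E j' j k') =
      if j = j' then 0 else 4 / (d + 1) ^ 2 := by
    intro j j'
    have a1 : ∑ k, E j k j' * E j k j' = E j j' j' := by
      rw [← h.idem j j' j']
      refine sum_congr rfl fun k _ => ?_
      rw [h.symm j j' k]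
    have a2 : ∑ k', E j' j k' * E j' j k' = E j' j j := by
      rw [← h.idem j' j j]
      refine sum_congr rfl fun k _ => ?_
      rw [h.symm j' k j]
    rw [a1, a2]
    by_cases hj : j = j'
    · subst hj; rw [if_pos rfl, h.zero, zero_mul]
    · rw [if_neg hj, h.diag j j' hj, h.diag j' j (Ne.symm hj)]
      rw [div_mul_div_comm]
      congr 1
      · norm_num
      · ring
  rw [e0, sum_congr rfl fun j _ => sum_congr rfl fun j' _ => e1 j j']
  have e2 : ∀ j : ι, ∑ j' : ι, (if j = j' then (0 : ℝ) else 4 / (d + 1) ^ 2) =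
      (d ^ 2 - 1) * (4 / (d + 1) ^ 2) := by
    intro j
    have e3 : ∀ k : ι, (if j = k then (0 : ℝ) else 4 / (d + 1) ^ 2) =
        4 / (d + 1) ^ 2 - if j = k then 4 / (d + 1) ^ 2 else 0 := by
      intro k; split_ifs <;> ring
    rw [sum_congr rfl fun k _ => e3 k, sum_sub_distrib, sum_const, card_univ,
      Finset.sum_ite_eq univ j, if_pos (mem_univ _), nsmul_eq_mul, h.card]
    ring
  rw [sum_congr rfl fun j _ => e2 j, sum_const, card_univ, nsmul_eq_mul, h.card]
  ring

theorem KtK (l l' : ι) : ((bigK E)ᵀ * bigK E) l l' =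
    2 / (d + 1) * (d ^ 2 * (if l = l' then 1 else 0) - 1) := by
  rw [Matrix.mul_apply, Fintype.sum_prod_type]
  simp only [Matrix.transpose_apply, bigK]
  have e1 : ∀ j, ∑ k, E j l k * E j l' k = E l' l j - 2 / (d + 1) *
    ((if l = j then 1 else 0) - (if l = l' then 1 else 0)) := by
    intro j
    rw [rel h j l' l, ← h.idem j l l']
    rw [add_sub_cancel_right]
    refine sum_congr rfl fun k _ => ?_
    rw [h.symm j l' k]
  rw [sum_congr rfl fun j _ => e1 j, sum_sub_distrib, h.ones, ← mul_sum, sum_sub_distrib,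
    Finset.sum_ite_eq univ l, if_pos (mem_univ _), sum_const, card_univ, nsmul_eq_mul, h.card]
  ring

theorem tr_KK : (bigK E * (bigK E)ᵀ).trace = d ^ 2 * (d ^ 2 - 1) * (2 / (d + 1)) := by
  rw [Matrix.trace_mul_comm, Matrix.trace]
  simp only [Matrix.diag_apply, KtK h, if_true]
  rw [sum_const, card_univ, nsmul_eq_mul, h.card]
  ring

theorem tr_KKKK : ((bigK E * (bigK E)ᵀ) * (bigK E * (bigK E)ᵀ)).trace =
    (4 / (d + 1) ^ 2) * (d ^ 4 * (d ^ 2 - 1)) := by
  have e0 : ((bigK E * (bigK E)ᵀ) * (bigK E * (bigK E)ᵀ)).trace =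
      (((bigK E)ᵀ * bigK E) * ((bigK E)ᵀ * bigK E)).trace := by
    rw [Matrix.mul_assoc, Matrix.trace_mul_comm]
    simp only [Matrix.mul_assoc]
  rw [e0, Matrix.trace]
  simp only [Matrix.diag_apply, Matrix.mul_apply (M := (bigK E)ᵀ * bigK E), KtK h]
  have e1 : ∀ l m : ι, 2 / (d + 1) * (d ^ 2 * (if l = m then 1 else 0) - 1) *
      (2 / (d + 1) * (d ^ 2 * (if m = l then 1 else 0) - 1)) =
      (4 / (d + 1) ^ 2) * (1 + (if l = m then (d ^ 4 - 2 * d ^ 2) else 0)) := by
    intro l m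
    have e9 : (4 : ℝ) / (d + 1) ^ 2 = (2 / (d + 1)) * (2 / (d + 1)) := by
      rw [div_mul_div_comm]
      congr 1
      · norm_num
      · ring
    rw [e9]
    generalize 2 / (d + 1) = z
    by_cases hlm : l = m
    · subst hlm
      simp only [if_true]
      ring
    · simp only [if_neg hlm, if_neg (Ne.symm hlm)]
      ring
  simp only [e1]
  rw [← sum_congr rfl fun l _ => mul_sum _ _ _]
  rw [← mul_sum]
  have e2 : ∀ l : ι, ∑ m : ι, (1 + (if l = m then (d ^ 4 - 2 * d ^ 2) else 0)) =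
      d ^ 2 + (d ^ 4 - 2 * d ^ 2) := by
    intro l
    rw [sum_add_distrib, Finset.sum_ite_eq univ l, if_pos (mem_univ _), sum_const, card_univ,
      nsmul_eq_mul, h.card]
    ring
  rw [sum_congr rfl fun l _ => e2 l, sum_const, card_univ, nsmul_eq_mul, h.card]
  ring

end

theorem expand {κ : Type*} [Fintype κ] (X0 X1 X2 X3 : Matrix κ κ ℝ) (a b e : ℝ) :
    ((X0 + a • X1 + b • X2 + e • X3) * (X0 + a • X1 + b • X2 + e • X3)).trace =
      (X0 * X0).trace + a ^ 2 * (X1 * X1).trace + b ^ 2 * (X2 * X2).trace +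
      e ^ 2 * (X3 * X3).trace + 2 * a * (X0 * X1).trace + 2 * b * (X0 * X2).trace +
      2 * e * (X0 * X3).trace + 2 * a * b * (X1 * X2).trace + 2 * a * e * (X1 * X3).trace +
      2 * b * e * (X2 * X3).trace := by
  simp only [add_mul, mul_add, Matrix.trace_add, Matrix.smul_mul, Matrix.mul_smul,
    Matrix.trace_smul, smul_eq_mul]
  rw [Matrix.trace_mul_comm X1 X0, Matrix.trace_mul_comm X2 X0, Matrix.trace_mul_comm X3 X0,
    Matrix.trace_mul_comm X2 X1, Matrix.trace_mul_comm X3 X1, Matrix.trace_mul_comm X3 X2]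
  ring

/-- The space of the antisymmetric arrays with rows in the ranges of the projections. -/
def flexes (E : ι → ι → ι → ℝ) : Submodule ℝ (EuclideanSpace ℝ (ι × ι)) where
  carrier := {τ | (∀ j k, τ (j, k) = -τ (k, j)) ∧ ∀ j k, ∑ l, E j k l * τ (j, l) = τ (j, k)}
  add_mem' := by
    rintro a b ⟨ha1, ha2⟩ ⟨hb1, hb2⟩
    refine ⟨fun j k => ?_, fun j k => ?_⟩
    · simp only [PiLp.add_apply]
      rw [ha1 j k, hb1 j k]; ring
    · simp only [PiLp.add_apply, mul_add, sum_add_distrib]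
      rw [ha2, hb2]
  zero_mem' := by
    refine ⟨fun j k => ?_, fun j k => ?_⟩ <;> simp
  smul_mem' := by
    rintro c a ⟨ha1, ha2⟩
    refine ⟨fun j k => ?_, fun j k => ?_⟩
    · simp only [PiLp.smul_apply, smul_eq_mul]
      rw [ha1 j k]; ring
    · simp only [PiLp.smul_apply, smul_eq_mul]
      rw [← ha2 j k, mul_sum]
      refine sum_congr rfl fun l _ => ?_
      ring

theorem finrank_flexes_le (h : Slices d E) (hd : 2 ≤ d) :
    (Module.finrank ℝ (flexes E) : ℝ) ≤ 3 * (d - 1) ^ 2 := by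
  have hd1 : d + 1 ≠ 0 := by linarith
  have hd1' : 0 < d + 1 := by linarith
  have hdm : 0 < d - 1 := by linarith
  set m := Module.finrank ℝ (flexes E) with hm
  let b := stdOrthonormalBasis ℝ (flexes E)
  let B : Matrix (ι × ι) (Fin m) ℝ := fun p a => ((b a : flexes E) : EuclideanSpace ℝ (ι × ι)) p
  have hBB : Bᵀ * B = 1 := by
    ext a a'
    rw [Matrix.mul_apply, Matrix.one_apply]
    have h1 := orthonormal_iff_ite.mp b.orthonormal a a'
    rw [← h1]
    rw [Submodule.coe_inner, PiLp.inner_apply]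
    refine sum_congr rfl fun p _ => ?_
    simp only [RCLike.inner_apply, conj_trivial]
    exact mul_comm _ _
  have hEB : bigE E * B = B := by
    ext p a
    rw [bigE_mul]
    exact (b a).2.2 p.1 p.2
  have hSB : bigS E * B = -B := by
    ext p a
    rw [bigS_mul]
    have e1 : ∀ k, ∑ n, E k p.1 n * B (k, n) a = B (k, p.1) a := fun k => (b a).2.2 k p.1
    rw [sum_congr rfl fun k _ => by rw [e1 k]]
    have e2 : ∀ k, B (k, p.1) a = - B (p.1, k) a := fun k => (b a).2.1 k p.1
    rw [sum_congr rfl fun k _ => by rw [e2 k, mul_neg], sum_neg_distrib]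
    rw [Matrix.neg_apply]
    congr 1
    exact (b a).2.2 p.1 p.2
  set μ : ℝ := (d - 1) / (d + 1) with hμ
  have hSK := S_K h hd1
  have hBK : Bᵀ * bigK E = 0 := by
    have h1 : Bᵀ * (bigS E * bigK E) = (Bᵀ * bigS E) * bigK E := by rw [Matrix.mul_assoc]
    have h2 : Bᵀ * bigS E = -Bᵀ := by
      have := congrArg Matrix.transpose hSB
      rw [Matrix.transpose_mul, St h, Matrix.transpose_neg] at this
      exact this
    rw [h2, hSK, Matrix.mul_smul, Matrix.neg_mul] at h1
    have h3 : (1 + μ) • (Bᵀ * bigK E) = 0 := by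
      rw [add_smul, one_smul, hμ, h1]
      exact add_neg_cancel _
    have h4 : (1 + μ) ≠ 0 := by
      have : 0 < μ := by rw [hμ]; positivity
      linarith
    rcases smul_eq_zero.mp h3 with h5 | h5
    · exact absurd h5 h4
    · exact h5
  set X1 := B * Bᵀ with hX1
  set X2 := bigK E * (bigK E)ᵀ with hX2
  have t11 : (X1 * X1).trace = m := by
    have : X1 * X1 = B * (Bᵀ * B) * Bᵀ := by simp only [hX1, Matrix.mul_assoc]
    rw [this, hBB, Matrix.mul_one, Matrix.trace_mul_comm, hBB, Matrix.trace_one, Fintype.card_fin]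
  have tX1 : X1.trace = m := by
    rw [hX1, Matrix.trace_mul_comm, hBB, Matrix.trace_one, Fintype.card_fin]
  have t01 : (bigS E * X1).trace = -m := by
    rw [hX1, ← Matrix.mul_assoc, hSB, Matrix.neg_mul, Matrix.trace_neg, ← hX1, tX1]
  have t02 : (bigS E * X2).trace = μ * (d ^ 2 * (d ^ 2 - 1) * (2 / (d + 1))) := by
    rw [hX2, ← Matrix.mul_assoc, hSK, Matrix.smul_mul, Matrix.trace_smul, tr_KK h, smul_eq_mul]
  have t03 : (bigS E * bigE E).trace = 0 := by
    rw [Matrix.trace_mul_comm, E_S h, tr_S h]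
  have t12 : (X1 * X2).trace = 0 := by
    have : X1 * X2 = B * (Bᵀ * bigK E) * (bigK E)ᵀ := by simp only [hX1, hX2, Matrix.mul_assoc]
    rw [this, hBK]
    simp
  have t13 : (X1 * bigE E).trace = m := by
    rw [Matrix.trace_mul_comm, hX1, ← Matrix.mul_assoc, hEB, ← hX1, tX1]
  have t23 : (X2 * bigE E).trace = d ^ 2 * (d ^ 2 - 1) * (2 / (d + 1)) := by
    rw [Matrix.trace_mul_comm, hX2, ← Matrix.mul_assoc, E_K h, tr_KK h]
  have t33 : (bigE E * bigE E).trace = d ^ 2 * (d ^ 2 - 1) * (2 / (d + 1)) := by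
    rw [E_E h, tr_E h]
  have t22 := tr_KKKK h
  rw [← hX2] at t22
  have t00 := tr_SS h
  set lam : ℝ := 1 / (d - 1) with hlam
  set c : ℝ := -((μ - lam) * ((d + 1) / (2 * d ^ 2))) with hc
  have key := expand (bigS E) X1 X2 (bigE E) (1 + lam) c (-lam)
  have hnn : 0 ≤ ((bigS E + (1 + lam) • X1 + c • X2 + (-lam) • bigE E) *
      (bigS E + (1 + lam) • X1 + c • X2 + (-lam) • bigE E)).trace := by
    set M := bigS E + (1 + lam) • X1 + c • X2 + (-lam) • bigE E with hM
    have hMt : Mᵀ = M := by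
      rw [hM]
      simp only [Matrix.transpose_add, Matrix.transpose_smul, St h, Et h, hX1, hX2,
        Matrix.transpose_mul, Matrix.transpose_transpose]
    have : (M * M).trace = (Mᵀ * M).trace := by rw [hMt]
    rw [this, Matrix.trace]
    refine sum_nonneg fun p _ => ?_
    rw [Matrix.diag_apply, Matrix.mul_apply]
    refine sum_nonneg fun q _ => ?_
    rw [Matrix.transpose_apply]
    exact mul_self_nonneg _
  rw [key, t00, t11, t22, t33, t01, t02, t03, t12, t13, t23] at hnn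
  have hd0 : d ≠ 0 := by linarith
  have hdm' : d - 1 ≠ 0 := hdm.ne'
  have hfin : d ^ 2 * (d ^ 2 - 1) * (4 / (d + 1) ^ 2) + (1 + lam) ^ 2 * (m : ℝ) +
      c ^ 2 * (4 / (d + 1) ^ 2 * (d ^ 4 * (d ^ 2 - 1))) +
      (-lam) ^ 2 * (d ^ 2 * (d ^ 2 - 1) * (2 / (d + 1))) + 2 * (1 + lam) * (-(m : ℝ)) +
      2 * c * (μ * (d ^ 2 * (d ^ 2 - 1) * (2 / (d + 1)))) + 2 * (-lam) * 0 +
      2 * (1 + lam) * c * 0 + 2 * (1 + lam) * (-lam) * (m : ℝ) +
      2 * c * (-lam) * (d ^ 2 * (d ^ 2 - 1) * (2 / (d + 1))) =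
      d ^ 2 / (d - 1) ^ 2 * (3 * (d - 1) ^ 2 - m) := by
    rw [hc, hμ, hlam]
    field_simp
    ring
  rw [hfin] at hnn
  have hpos : 0 < d ^ 2 / (d - 1) ^ 2 := by positivity
  have := nonneg_of_mul_nonneg_right hnn hpos
  linarith

end Pool.Agent.V11279.DF
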