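import Mathlib
import Pool.Agent.H103R3.FrameCrit
import Pool.Agent.V11279.DF.A

set_option autoImplicit false

/-!
# The projections of a maximal equiangular tight frame and its infinitesimal deformations
-/

namespace Pool.Agent.V11279.DF

open scoped InnerProductSpace ComplexConjugate
open Finset Pool.Agent.H103R3

variable {d : ℕ} {ι : Type*} [Fintype ι] [DecidableEq ι]

/-- Half of the derivative of `|⟪x j, x l⟫|²` with respect to `x j` in the direction `v`, twice. -/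
noncomputable def tau (x : ι → EuclideanSpace ℂ (Fin d)) (j : ι) (v : EuclideanSpace ℂ (Fin d))
    (l : ι) : ℝ :=
  2 * (⟪v, x l⟫_ℂ * ⟪x l, x j⟫_ℂ).re

noncomputable def wv (x : ι → EuclideanSpace ℂ (Fin d)) (j k : ι) : EuclideanSpace ℂ (Fin d) :=
  ⟪x k, x j⟫_ℂ • x k - (⟪x k, x j⟫_ℂ * ⟪x j, x k⟫_ℂ) • x j

noncomputable def EE (x : ι → EuclideanSpace ℂ (Fin d)) (j k l : ι) : ℝ :=
  ((d : ℝ) + 1) / d * tau x j (wv x j k) l

omit [Fintype ι] [DecidableEq ι] in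
theorem EE_eq (x : ι → EuclideanSpace ℂ (Fin d)) (j k l : ι) :
    EE x j k l = ((d : ℝ) + 1) / d * (2 * (⟪x j, x k⟫_ℂ * ⟪x k, x l⟫_ℂ * ⟪x l, x j⟫_ℂ -
      (⟪x j, x k⟫_ℂ * ⟪x k, x j⟫_ℂ) * (⟪x j, x l⟫_ℂ * ⟪x l, x j⟫_ℂ)).re) := by
  unfold EE tau wv
  rw [inner_sub_left, inner_smul_left, inner_smul_left, map_mul, inner_conj_symm, inner_conj_symm]
  congr 3
  ring

omit [Fintype ι] [DecidableEq ι] in
theorem EE_symm (x : ι → EuclideanSpace ℂ (Fin d)) (j k l : ι) : EE x j k l = EE x j l k := by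
  rw [EE_eq, EE_eq]
  congr 2
  have h : ⟪x j, x l⟫_ℂ * ⟪x l, x k⟫_ℂ * ⟪x k, x j⟫_ℂ -
      (⟪x j, x l⟫_ℂ * ⟪x l, x j⟫_ℂ) * (⟪x j, x k⟫_ℂ * ⟪x k, x j⟫_ℂ) =
      conj (⟪x j, x k⟫_ℂ * ⟪x k, x l⟫_ℂ * ⟪x l, x j⟫_ℂ -
      (⟪x j, x k⟫_ℂ * ⟪x k, x j⟫_ℂ) * (⟪x j, x l⟫_ℂ * ⟪x l, x j⟫_ℂ)) := by
    simp only [map_sub, map_mul, inner_conj_symm]
    ring
  rw [h, Complex.conj_re]

section
variable (hd : 0 < d) (hcard : Fintype.card ι = d ^ 2)
  (x : ι → EuclideanSpace ℂ (Fin d)) (h1 : ∀ k, ‖x k‖ = 1)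
  (h2 : ∀ k l, k ≠ l → ‖⟪x k, x l⟫_ℂ‖ = 1 / Real.sqrt ((d : ℝ) + 1))

omit [DecidableEq ι] in
include hd hcard h1 h2 in
theorem sum_tau (j : ι) (v w : EuclideanSpace ℂ (Fin d)) (hv : ⟪v, x j⟫_ℂ = 0) :
    ∑ l, tau x j v l * tau x j w l = 2 * (d : ℝ) / (d + 1) * (⟪v, w⟫_ℂ).re := by
  have hjj : ⟪x j, x j⟫_ℂ = 1 := by
    rw [inner_self_eq_norm_sq_to_K, h1]; simp
  have e1 : ∀ l, tau x j v l * tau x j w l =
      2 * (((⟪v, x l⟫_ℂ * ⟪x l, x j⟫_ℂ) * (⟪w, x l⟫_ℂ * ⟪x l, x j⟫_ℂ)).re +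
        ((⟪v, x l⟫_ℂ * ⟪x l, w⟫_ℂ) * (⟪x j, x l⟫_ℂ * ⟪x l, x j⟫_ℂ)).re) := by
    intro l
    have e2 : (⟪v, x l⟫_ℂ * ⟪x l, w⟫_ℂ) * (⟪x j, x l⟫_ℂ * ⟪x l, x j⟫_ℂ) =
        (⟪v, x l⟫_ℂ * ⟪x l, x j⟫_ℂ) * conj (⟪w, x l⟫_ℂ * ⟪x l, x j⟫_ℂ) := by
      rw [map_mul, inner_conj_symm, inner_conj_symm]; ring
    rw [e2]
    unfold tau
    generalize ⟪v, x l⟫_ℂ * ⟪x l, x j⟫_ℂ = a
    generalize ⟪w, x l⟫_ℂ * ⟪x l, x j⟫_ℂ = b
    simp only [Complex.mul_re, Complex.conj_re, Complex.conj_im]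
    ring
  rw [sum_congr rfl fun l _ => e1 l, ← mul_sum, sum_add_distrib, ← Complex.re_sum,
    ← Complex.re_sum, FrameCrit.sic_design hd hcard x h1 h2, FrameCrit.sic_design hd hcard x h1 h2,
    hv, hjj]
  have e3 : ((d : ℂ) / ((d : ℂ) + 1)) * (0 * ⟪x j, w⟫_ℂ + ⟪v, w⟫_ℂ * 1) =
      (((d : ℝ) / ((d : ℝ) + 1) : ℝ) : ℂ) * ⟪v, w⟫_ℂ := by
    push_cast; ring
  rw [e3, Complex.re_ofReal_mul]
  have e4 : ((d : ℂ) / ((d : ℂ) + 1)) * (0 * ⟪w, x j⟫_ℂ + 0 * ⟪w, x j⟫_ℂ) = 0 := by ring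
  rw [e4, Complex.zero_re]
  ring

omit [DecidableEq ι] [Fintype ι] in
theorem re_wv (j k : ι) (v : EuclideanSpace ℂ (Fin d)) (hv : ⟪v, x j⟫_ℂ = 0) :
    2 * (⟪wv x j k, v⟫_ℂ).re = tau x j v k := by
  have e1 : ⟪wv x j k, v⟫_ℂ = conj (⟪v, wv x j k⟫_ℂ) := (inner_conj_symm _ _).symm
  rw [e1, Complex.conj_re]
  unfold tau wv
  rw [inner_sub_right, inner_smul_right, inner_smul_right, hv, mul_zero, sub_zero]
  ring_nf

omit [DecidableEq ι] [Fintype ι] in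
include h1 in
theorem wv_orth (j k : ι) : ⟪wv x j k, x j⟫_ℂ = 0 := by
  have hjj : ⟪x j, x j⟫_ℂ = 1 := by
    rw [inner_self_eq_norm_sq_to_K, h1]; simp
  unfold wv
  rw [inner_sub_left, inner_smul_left, inner_smul_left, map_mul, inner_conj_symm, inner_conj_symm,
    hjj]
  ring

omit [DecidableEq ι] in
include hd hcard h1 h2 in
theorem sum_EE_tau (j k : ι) (v : EuclideanSpace ℂ (Fin d)) (hv : ⟪v, x j⟫_ℂ = 0) :
    ∑ l, EE x j k l * tau x j v l = tau x j v k := by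
  have hD : (0 : ℝ) < d := by exact_mod_cast hd
  unfold EE
  rw [sum_congr rfl fun l _ => mul_assoc _ _ _, ← mul_sum,
    sum_tau hd hcard x h1 h2 j _ v (wv_orth x h1 j k), ← re_wv x j k v hv]
  field_simp

include hd hcard h1 h2 in
theorem slices : Slices (d : ℝ) (EE x) := by
  have hD : (0 : ℝ) < d := by exact_mod_cast hd
  have hjj : ∀ j, ⟪x j, x j⟫_ℂ = 1 := by
    intro j
    rw [inner_self_eq_norm_sq_to_K, h1]; simp
  have hpp : ∀ j k, j ≠ k → ⟪x j, x k⟫_ℂ * ⟪x k, x j⟫_ℂ = ((1 / ((d : ℝ) + 1) : ℝ) : ℂ) := by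
    intro j k hjk
    rw [← inner_conj_symm (x k) (x j), Complex.mul_conj, Complex.normSq_eq_norm_sq, h2 j k hjk,
      div_pow, one_pow, Real.sq_sqrt (by positivity)]
  refine ⟨?_, EE_symm x, ?_, ?_, ?_, ?_, ?_⟩
  · rw [hcard]; push_cast; ring
  · intro j k l
    have e1 : ∀ m, EE x j k m * EE x j m l =
        ((d : ℝ) + 1) / d * (EE x j k m * tau x j (wv x j l) m) := by
      intro m
      rw [EE_symm x j m l]
      conv_lhs => rw [show EE x j l m = ((d : ℝ) + 1) / d * tau x j (wv x j l) m from rfl]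
      ring
    rw [sum_congr rfl fun m _ => e1 m, ← mul_sum,
      sum_EE_tau hd hcard x h1 h2 j k _ (wv_orth x h1 j l), EE_symm x j k l]
    rfl
  · intro j k hjk
    rw [EE_eq, hjj, mul_one, hpp j k hjk]
    rw [Complex.sub_re, ← Complex.ofReal_mul, Complex.ofReal_re, Complex.ofReal_re]
    field_simp
    ring
  · intro j k
    rw [EE_eq, hjj, one_mul, one_mul, one_mul, sub_self]
    simp
  · intro j k
    rw [sum_congr rfl fun l _ => EE_eq x j k l, ← mul_sum, ← mul_sum, ← Complex.re_sum,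
      sum_sub_distrib, ← mul_sum, FrameCrit.sic_frame hd hcard x h1 h2]
    have e1 : ∑ l, ⟪x j, x k⟫_ℂ * ⟪x k, x l⟫_ℂ * ⟪x l, x j⟫_ℂ =
        ⟪x j, x k⟫_ℂ * ((d : ℂ) * ⟪x k, x j⟫_ℂ) := by
      rw [← FrameCrit.sic_frame hd hcard x h1 h2, mul_sum]
      refine sum_congr rfl fun l _ => ?_
      ring
    rw [e1, hjj]
    have e2 : ⟪x j, x k⟫_ℂ * ((d : ℂ) * ⟪x k, x j⟫_ℂ) -
        ⟪x j, x k⟫_ℂ * ⟪x k, x j⟫_ℂ * ((d : ℂ) * 1) = 0 := by ring
    rw [e2]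
    simp
  · intro j k l hjk hkl hjl
    rw [EE_eq, EE_eq, hpp j k hjk, hpp j l hjl, hpp k j (Ne.symm hjk), hpp k l hkl]
    congr 2
    rw [Complex.sub_re, Complex.sub_re]
    congr 1
    have h : ⟪x k, x j⟫_ℂ * ⟪x j, x l⟫_ℂ * ⟪x l, x k⟫_ℂ =
        conj (⟪x j, x k⟫_ℂ * ⟪x k, x l⟫_ℂ * ⟪x l, x j⟫_ℂ) := by
      simp only [map_mul, inner_conj_symm]
      ring
    rw [h, Complex.conj_re]

end

/-- The infinitesimal deformations: the vectors in the direction of which the derivatives of all the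
`|⟪x i, x j⟫|²` (also for `i = j`) vanish. -/
def Deform (x : ι → EuclideanSpace ℂ (Fin d)) : Submodule ℝ (ι → EuclideanSpace ℂ (Fin d)) where
  carrier := {v | ∀ i j, (⟪x j, x i⟫_ℂ * (⟪v i, x j⟫_ℂ + ⟪x i, v j⟫_ℂ)).re = 0}
  add_mem' := by
    intro a b ha hb i j
    have := congrArg₂ (· + ·) (ha i j) (hb i j)
    simp only [add_zero] at this
    rw [← this, ← Complex.add_re]
    congr 1
    simp only [Pi.add_apply, inner_add_left, inner_add_right]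
    ring
  zero_mem' := by
    intro i j
    simp
  smul_mem' := by
    intro c a ha i j
    have e : ⟪x j, x i⟫_ℂ * (⟪(c • a) i, x j⟫_ℂ + ⟪x i, (c • a) j⟫_ℂ) =
        (c : ℂ) * (⟪x j, x i⟫_ℂ * (⟪a i, x j⟫_ℂ + ⟪x i, a j⟫_ℂ)) := by
      have h1 : (c • a) i = (c : ℂ) • a i := by
        rw [Pi.smul_apply]; exact (RCLike.real_smul_eq_coe_smul (K := ℂ) c (a i))
      have h2 : (c • a) j = (c : ℂ) • a j := by
        rw [Pi.smul_apply]; exact (RCLike.real_smul_eq_coe_smul (K := ℂ) c (a j))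
      rw [h1, h2, inner_smul_left, inner_smul_right, Complex.conj_ofReal]
      ring
    rw [e, Complex.re_ofReal_mul, ha i j, mul_zero]

/-- The phases of an infinitesimal deformation. -/
noncomputable def phaseMap (x : ι → EuclideanSpace ℂ (Fin d)) : Deform x →ₗ[ℝ] (ι → ℝ) where
  toFun v := fun i => (⟪x i, (v : ι → EuclideanSpace ℂ (Fin d)) i⟫_ℂ).im
  map_add' a b := by
    ext i
    simp only [Submodule.coe_add, Pi.add_apply, inner_add_right, Complex.add_im]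
  map_smul' c a := by
    ext i
    have h1 : ((c • a : Deform x) : ι → EuclideanSpace ℂ (Fin d)) i =
        (c : ℂ) • (a : ι → EuclideanSpace ℂ (Fin d)) i := by
      rw [Submodule.coe_smul, Pi.smul_apply]
      exact (RCLike.real_smul_eq_coe_smul (K := ℂ) c _)
    rw [h1, inner_smul_right]
    simp only [Complex.im_ofReal_mul, RingHom.id_apply, Pi.smul_apply, smul_eq_mul]

theorem inner_zero_of_ker (x : ι → EuclideanSpace ℂ (Fin d)) (h1 : ∀ k, ‖x k‖ = 1)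
    (v : Deform x) (hv : phaseMap x v = 0) (i : ι) :
    ⟪(v : ι → EuclideanSpace ℂ (Fin d)) i, x i⟫_ℂ = 0 := by
  have hjj : ⟪x i, x i⟫_ℂ = 1 := by
    rw [inner_self_eq_norm_sq_to_K, h1]; simp
  have h3 : (⟪x i, (v : ι → EuclideanSpace ℂ (Fin d)) i⟫_ℂ).im = 0 := congrFun hv i
  have h4 := v.2 i i
  rw [hjj, one_mul, Complex.add_re,
    ← inner_conj_symm ((v : ι → EuclideanSpace ℂ (Fin d)) i) (x i), Complex.conj_re] at h4
  rw [← inner_conj_symm, map_eq_zero]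
  apply Complex.ext
  · simp only [Complex.zero_re]; linarith
  · simpa using h3

/-- The linear map `v ↦ (tau x j (v j) k)`. -/
noncomputable def tauL (x : ι → EuclideanSpace ℂ (Fin d)) :
    (ι → EuclideanSpace ℂ (Fin d)) →ₗ[ℝ] EuclideanSpace ℝ (ι × ι) where
  toFun v := WithLp.toLp 2 fun p => tau x p.1 (v p.1) p.2
  map_add' a b := by
    ext p
    show tau x p.1 (a p.1 + b p.1) p.2 = tau x p.1 (a p.1) p.2 + tau x p.1 (b p.1) p.2
    unfold tau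
    rw [inner_add_left, add_mul, Complex.add_re, mul_add]
  map_smul' c a := by
    ext p
    show tau x p.1 (c • a p.1) p.2 = c * tau x p.1 (a p.1) p.2
    unfold tau
    rw [RCLike.real_smul_eq_coe_smul (K := ℂ) c (a p.1), inner_smul_left, mul_assoc]
    have : (starRingEnd ℂ) (RCLike.ofReal c : ℂ) = (c : ℂ) := Complex.conj_ofReal c
    rw [this, Complex.re_ofReal_mul]
    ring

theorem tauL_mem (hd : 0 < d) (hcard : Fintype.card ι = d ^ 2)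
    (x : ι → EuclideanSpace ℂ (Fin d)) (h1 : ∀ k, ‖x k‖ = 1)
    (h2 : ∀ k l, k ≠ l → ‖⟪x k, x l⟫_ℂ‖ = 1 / Real.sqrt ((d : ℝ) + 1))
    (v : ι → EuclideanSpace ℂ (Fin d)) (hv : v ∈ Deform x) (h0 : ∀ i, ⟪v i, x i⟫_ℂ = 0) :
    tauL x v ∈ flexes (EE x) := by
  refine ⟨fun j k => ?_, fun j k => ?_⟩
  · show tau x j (v j) k = - tau x k (v k) j
    have h := hv j k
    have e : ⟪v k, x j⟫_ℂ * ⟪x j, x k⟫_ℂ = conj (⟪x k, x j⟫_ℂ * ⟪x j, v k⟫_ℂ) := by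
      rw [map_mul, inner_conj_symm, inner_conj_symm]; ring
    unfold tau
    rw [e, Complex.conj_re]
    rw [mul_add, Complex.add_re] at h
    have e2 : ⟪v j, x k⟫_ℂ * ⟪x k, x j⟫_ℂ = ⟪x k, x j⟫_ℂ * ⟪v j, x k⟫_ℂ := mul_comm _ _
    rw [e2]
    linarith
  · show ∑ l, EE x j k l * tau x j (v j) l = tau x j (v j) k
    exact sum_EE_tau hd hcard x h1 h2 j k _ (h0 j)

/-- The map from the normalised infinitesimal deformations to the antisymmetric arrays. -/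
noncomputable def tauMap (hd : 0 < d) (hcard : Fintype.card ι = d ^ 2)
    (x : ι → EuclideanSpace ℂ (Fin d)) (h1 : ∀ k, ‖x k‖ = 1)
    (h2 : ∀ k l, k ≠ l → ‖⟪x k, x l⟫_ℂ‖ = 1 / Real.sqrt ((d : ℝ) + 1)) :
    LinearMap.ker (phaseMap x) →ₗ[ℝ] flexes (EE x) :=
  LinearMap.codRestrict (flexes (EE x))
    (((tauL x).comp (Deform x).subtype).comp (LinearMap.ker (phaseMap x)).subtype)
    (fun v => tauL_mem hd hcard x h1 h2 _ (v : Deform x).2 (inner_zero_of_ker x h1 _ v.2))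

theorem tauMap_injective (hd : 0 < d) (hcard : Fintype.card ι = d ^ 2)
    (x : ι → EuclideanSpace ℂ (Fin d)) (h1 : ∀ k, ‖x k‖ = 1)
    (h2 : ∀ k l, k ≠ l → ‖⟪x k, x l⟫_ℂ‖ = 1 / Real.sqrt ((d : ℝ) + 1)) :
    Function.Injective (tauMap hd hcard x h1 h2) := by
  have hD : (0 : ℝ) < d := by exact_mod_cast hd
  rw [injective_iff_map_eq_zero]
  intro v hv
  apply Subtype.ext
  apply Subtype.ext
  ext1 j
  have e0 : ∀ l, tau x j (((v : Deform x) : ι → EuclideanSpace ℂ (Fin d)) j) l = 0 := by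
    intro l
    have := congrArg (fun z : flexes (EE x) => (z : EuclideanSpace ℝ (ι × ι)) (j, l)) hv
    exact this
  have e1 := sum_tau hd hcard x h1 h2 j (((v : Deform x) : ι → EuclideanSpace ℂ (Fin d)) j)
    (((v : Deform x) : ι → EuclideanSpace ℂ (Fin d)) j) (inner_zero_of_ker x h1 _ v.2 j)
  rw [sum_eq_zero fun l _ => by rw [e0 l, zero_mul]] at e1
  have e2 : (⟪((v : Deform x) : ι → EuclideanSpace ℂ (Fin d)) j,
      ((v : Deform x) : ι → EuclideanSpace ℂ (Fin d)) j⟫_ℂ).re = 0 := by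
    have hpos : (0 : ℝ) < 2 * (d : ℝ) / (d + 1) := by positivity
    rcases mul_eq_zero.mp e1.symm with h | h
    · exact absurd h hpos.ne'
    · exact h
  have e3 : ‖((v : Deform x) : ι → EuclideanSpace ℂ (Fin d)) j‖ ^ 2 = 0 := by
    rw [← e2, ← RCLike.re_eq_complex_re]
    exact (inner_self_eq_norm_sq (𝕜 := ℂ) _).symm
  have e4 : ‖((v : Deform x) : ι → EuclideanSpace ℂ (Fin d)) j‖ = 0 := by
    exact pow_eq_zero_iff (two_ne_zero) |>.mp e3
  simpa using norm_eq_zero.mp e4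

/-- The space of the infinitesimal deformations of a maximal ETF has dimension at most
`d² + 3 (d - 1)²`. -/
theorem finrank_deform_le (hd : 2 ≤ d) (hcard : Fintype.card ι = d ^ 2)
    (x : ι → EuclideanSpace ℂ (Fin d)) (h1 : ∀ k, ‖x k‖ = 1)
    (h2 : ∀ k l, k ≠ l → ‖⟪x k, x l⟫_ℂ‖ = 1 / Real.sqrt ((d : ℝ) + 1)) :
    Module.finrank ℝ (Deform x) ≤ d ^ 2 + 3 * (d - 1) ^ 2 := by
  have hd0 : 0 < d := by omega
  have ha := LinearMap.finrank_range_add_finrank_ker (phaseMap x)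
  have hb : Module.finrank ℝ (LinearMap.range (phaseMap x)) ≤ d ^ 2 := by
    refine le_trans (Submodule.finrank_le _) ?_
    rw [Module.finrank_pi, hcard]
  have hc : Module.finrank ℝ (LinearMap.ker (phaseMap x)) ≤ Module.finrank ℝ (flexes (EE x)) :=
    LinearMap.finrank_le_finrank_of_injective (tauMap_injective hd0 hcard x h1 h2)
  have hf := finrank_flexes_le (slices hd0 hcard x h1 h2) (by exact_mod_cast hd)
  have hf' : Module.finrank ℝ (flexes (EE x)) ≤ 3 * (d - 1) ^ 2 := by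
    have e : (3 * ((d : ℝ) - 1) ^ 2) = ((3 * (d - 1) ^ 2 : ℕ) : ℝ) := by
      push_cast [Nat.cast_sub (show 1 ≤ d by omega)]
      ring
    rw [e] at hf
    exact_mod_cast hf
  omega

end Pool.Agent.V11279.DF
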