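import Mathlib
import Pool.Agent.H103R3.FrameCrit
import Pool.Agent.V11279.DF.B

set_option autoImplicit false
set_option linter.unusedSectionVars false

/-!
# The trivial infinitesimal deformations
-/

namespace Pool.Agent.V11279.DF

open scoped InnerProductSpace ComplexConjugate
open Finset Pool.Agent.H103R3

variable {d : ℕ} {ι : Type*} [Fintype ι] [DecidableEq ι]

/-- The trivial infinitesimal deformations `v j = A (x j) + i θ j x j`, `A` skew-adjoint and the
`θ j` real: they are tangent to the orbits of the unitary group and of the changes of phases. -/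
def Triv (x : ι → EuclideanSpace ℂ (Fin d)) : Submodule ℝ (ι → EuclideanSpace ℂ (Fin d)) where
  carrier := {v | ∃ (A : EuclideanSpace ℂ (Fin d) →ₗ[ℂ] EuclideanSpace ℂ (Fin d)) (θ : ι → ℝ),
    (∀ u w, ⟪A u, w⟫_ℂ = -⟪u, A w⟫_ℂ) ∧ ∀ j, v j = A (x j) + ((θ j : ℂ) * Complex.I) • x j}
  add_mem' := by
    rintro a b ⟨A, θ, hA, ha⟩ ⟨B, η, hB, hb⟩
    refine ⟨A + B, θ + η, fun u w => ?_, fun j => ?_⟩
    · rw [LinearMap.add_apply, LinearMap.add_apply, inner_add_left, inner_add_right, hA, hB]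
      ring
    · rw [Pi.add_apply, ha, hb, LinearMap.add_apply, Pi.add_apply]
      push_cast
      module
  zero_mem' := ⟨0, 0, by simp, by simp⟩
  smul_mem' := by
    rintro c a ⟨A, θ, hA, ha⟩
    refine ⟨(c : ℂ) • A, c • θ, fun u w => ?_, fun j => ?_⟩
    · rw [LinearMap.smul_apply, LinearMap.smul_apply, inner_smul_left, inner_smul_right, hA,
        Complex.conj_ofReal]
      ring
    · have h1 : (c • a) j = (c : ℂ) • a j := by
        rw [Pi.smul_apply]; exact (RCLike.real_smul_eq_coe_smul (K := ℂ) c (a j))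
      rw [h1, ha, LinearMap.smul_apply, Pi.smul_apply, smul_eq_mul]
      push_cast
      module

theorem triv_le_deform (x : ι → EuclideanSpace ℂ (Fin d)) : Triv x ≤ Deform x := by
  rintro v ⟨A, θ, hA, hv⟩ i j
  rw [hv i, hv j, inner_add_left, inner_add_right, inner_smul_left, inner_smul_right, hA, map_mul,
    Complex.conj_ofReal, Complex.conj_I]
  have e : ⟪x j, x i⟫_ℂ * (-⟪x i, A (x j)⟫_ℂ + (θ i : ℂ) * -Complex.I * ⟪x i, x j⟫_ℂ +
      (⟪x i, A (x j)⟫_ℂ + (θ j : ℂ) * Complex.I * ⟪x i, x j⟫_ℂ)) =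
      (⟪x j, x i⟫_ℂ * ⟪x i, x j⟫_ℂ) * (((θ j - θ i : ℝ) : ℂ) * Complex.I) := by
    push_cast; ring
  rw [e, ← inner_conj_symm (x j) (x i), mul_comm (conj _), Complex.mul_conj, ← mul_assoc,
    ← Complex.ofReal_mul, Complex.re_ofReal_mul, Complex.I_re, mul_zero]

/-- The parametrisation of the trivial deformations. -/
noncomputable def par (x : ι → EuclideanSpace ℂ (Fin d)) :
    ((ι → ℝ) × (ι → ℝ)) →ₗ[ℝ] (ι → EuclideanSpace ℂ (Fin d)) where
  toFun p := fun j => (∑ k, ((p.1 k : ℂ) * Complex.I * ⟪x k, x j⟫_ℂ) • x k) +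
    ((p.2 j : ℂ) * Complex.I) • x j
  map_add' p q := by
    ext1 j
    simp only [Prod.fst_add, Prod.snd_add, Pi.add_apply, Complex.ofReal_add, add_mul, add_smul,
      sum_add_distrib]
    abel
  map_smul' c p := by
    ext1 j
    simp only [Prod.smul_fst, Prod.smul_snd, Pi.smul_apply, smul_eq_mul, Complex.ofReal_mul,
      RingHom.id_apply]
    have h1 : ∀ z : EuclideanSpace ℂ (Fin d), c • z = (c : ℂ) • z := fun z =>
      RCLike.real_smul_eq_coe_smul (K := ℂ) c z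
    rw [h1, smul_add, smul_sum]
    congr 1
    · refine sum_congr rfl fun k _ => ?_
      rw [smul_smul]; congr 1; ring
    · rw [smul_smul]; congr 1; ring

section
variable (hd : 0 < d) (hcard : Fintype.card ι = d ^ 2)
  (x : ι → EuclideanSpace ℂ (Fin d)) (h1 : ∀ k, ‖x k‖ = 1)
  (h2 : ∀ k l, k ≠ l → ‖⟪x k, x l⟫_ℂ‖ = 1 / Real.sqrt ((d : ℝ) + 1))

include hd hcard h1 h2 in
/-- Every skew-adjoint operator is a combination of the projections. -/
theorem skew_expand (A : EuclideanSpace ℂ (Fin d) →ₗ[ℂ] EuclideanSpace ℂ (Fin d))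
    (hA : ∀ u w, ⟪A u, w⟫_ℂ = -⟪u, A w⟫_ℂ) :
    ∃ (t : ι → ℝ) (c : ℝ), ∀ z, A z = (∑ k, ((t k : ℂ) * Complex.I * ⟪x k, z⟫_ℂ) • x k) +
      ((c : ℂ) * Complex.I) • z := by
  have hD : (d : ℂ) ≠ 0 := by exact_mod_cast hd.ne'
  have hD1 : (d : ℂ) + 1 ≠ 0 := by exact_mod_cast (Nat.succ_ne_zero d)
  let e := EuclideanSpace.basisFun (Fin d) ℂ
  have him : ∀ u, ∃ s : ℝ, ⟪u, A u⟫_ℂ = (s : ℂ) * Complex.I := by
    intro u
    refine ⟨(⟪u, A u⟫_ℂ).im, ?_⟩
    have h : (⟪u, A u⟫_ℂ).re = 0 := by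
      have h3 := congrArg Complex.re (hA u u)
      rw [← inner_conj_symm, Complex.conj_re, Complex.neg_re] at h3
      linarith
    apply Complex.ext
    · simp [h]
    · simp
  choose s hs using him
  -- the trace
  have key : ∀ u z, ∑ k, ⟪x k, A (x k)⟫_ℂ * (⟪u, x k⟫_ℂ * ⟪x k, z⟫_ℂ) =
      ((d : ℂ) / (d + 1)) * (⟪u, A z⟫_ℂ + (∑ a, ⟪e a, A (e a)⟫_ℂ) * ⟪u, z⟫_ℂ) := by
    intro u z
    have e1 : ∀ k, ⟪x k, A (x k)⟫_ℂ = -∑ a, ⟪A (e a), x k⟫_ℂ * ⟪x k, e a⟫_ℂ := by
      intro k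
      rw [← e.sum_inner_mul_inner (x k) (A (x k)), ← sum_neg_distrib]
      refine sum_congr rfl fun a _ => ?_
      rw [hA]; ring
    have e2 : ∀ k, ⟪x k, A (x k)⟫_ℂ * (⟪u, x k⟫_ℂ * ⟪x k, z⟫_ℂ) =
        -∑ a, (⟪A (e a), x k⟫_ℂ * ⟪x k, e a⟫_ℂ) * (⟪u, x k⟫_ℂ * ⟪x k, z⟫_ℂ) := by
      intro k
      rw [e1 k, neg_mul, sum_mul]
    rw [sum_congr rfl fun k _ => e2 k, sum_neg_distrib, sum_comm]
    rw [sum_congr rfl fun a _ => FrameCrit.sic_design hd hcard x h1 h2 _ _ _ _]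
    rw [← mul_sum, ← mul_neg, sum_add_distrib]
    congr 1
    have e3 : ∑ a, ⟪A (e a), z⟫_ℂ * ⟪u, e a⟫_ℂ = -⟪u, A z⟫_ℂ := by
      rw [← e.sum_inner_mul_inner u (A z), ← sum_neg_distrib]
      refine sum_congr rfl fun a _ => ?_
      rw [hA]; ring
    have e4 : ∑ a, ⟪A (e a), e a⟫_ℂ * ⟪u, z⟫_ℂ = -((∑ a, ⟪e a, A (e a)⟫_ℂ) * ⟪u, z⟫_ℂ) := by
      rw [sum_mul, ← sum_neg_distrib]
      refine sum_congr rfl fun a _ => ?_
      rw [hA]; ring
    rw [e3, e4]
    ring
  refine ⟨fun k => ((d : ℝ) + 1) / d * s (x k), -∑ a, s (e a), fun z => ?_⟩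
  apply ext_inner_left ℂ
  intro u
  have h3 := key u z
  have h4 : ⟪u, A z⟫_ℂ = ((d : ℂ) + 1) / d * (∑ k, ⟪x k, A (x k)⟫_ℂ * (⟪u, x k⟫_ℂ * ⟪x k, z⟫_ℂ)) -
      (∑ a, ⟪e a, A (e a)⟫_ℂ) * ⟪u, z⟫_ℂ := by
    rw [h3]; field_simp; ring
  rw [h4, inner_add_right, inner_sum, inner_smul_right, mul_sum, sub_eq_add_neg]
  congr 1
  · refine sum_congr rfl fun k _ => ?_
    rw [inner_smul_right, hs]
    push_cast
    ring
  · rw [sum_congr rfl fun a _ => hs (e a), ← sum_mul]
    push_cast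
    ring

include hd hcard h1 h2 in
theorem range_par : LinearMap.range (par x) = Triv x := by
  apply le_antisymm
  · rintro _ ⟨p, rfl⟩
    refine ⟨∑ k, ((p.1 k : ℂ) * Complex.I) • (LinearMap.toSpanSingleton ℂ _ (x k)).comp
      (innerSL ℂ (x k)).toLinearMap, p.2, fun u w => ?_, fun j => ?_⟩
    · simp only [LinearMap.sum_apply, LinearMap.smul_apply, LinearMap.comp_apply,
        ContinuousLinearMap.coe_coe, innerSL_apply_apply, LinearMap.toSpanSingleton_apply, sum_inner,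
        inner_sum, inner_smul_left, inner_smul_right, map_mul, Complex.conj_ofReal, Complex.conj_I,
        inner_conj_symm]
      rw [← sum_neg_distrib]
      refine sum_congr rfl fun k _ => ?_
      ring
    · simp only [LinearMap.sum_apply, LinearMap.smul_apply, LinearMap.comp_apply,
        ContinuousLinearMap.coe_coe, innerSL_apply_apply, LinearMap.toSpanSingleton_apply, smul_smul]
      rfl
  · rintro v ⟨A, θ, hA, hv⟩
    obtain ⟨t, c, h⟩ := skew_expand hd hcard x h1 h2 A hA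
    refine ⟨(t, fun j => c + θ j), ?_⟩
    ext1 j
    rw [hv j, h (x j)]
    show (∑ k, ((t k : ℂ) * Complex.I * ⟪x k, x j⟫_ℂ) • x k) +
      (((c + θ j : ℝ) : ℂ) * Complex.I) • x j = _
    push_cast
    rw [add_mul, add_smul, add_assoc]

include hd hcard h1 h2 in
theorem ker_par : LinearMap.ker (par x) =
    Submodule.span ℝ {((fun _ => 1, fun _ => -(d : ℝ)) : (ι → ℝ) × (ι → ℝ))} := by
  have hD : (0 : ℝ) < d := by exact_mod_cast hd
  have hjj : ∀ j, ⟪x j, x j⟫_ℂ = 1 := by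
    intro j
    rw [inner_self_eq_norm_sq_to_K, h1]; simp
  have hpp : ∀ j k, j ≠ k → ⟪x j, x k⟫_ℂ * ⟪x k, x j⟫_ℂ = ((1 / ((d : ℝ) + 1) : ℝ) : ℂ) := by
    intro j k hjk
    rw [← inner_conj_symm (x k) (x j), Complex.mul_conj, Complex.normSq_eq_norm_sq, h2 j k hjk,
      div_pow, one_pow, Real.sq_sqrt (by positivity)]
  have hne : ∀ j k, ⟪x j, x k⟫_ℂ ≠ 0 := by
    intro j k h0
    by_cases hjk : j = k
    · subst hjk; rw [hjj] at h0; exact one_ne_zero h0
    · have h3 := hpp j k hjk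
      rw [h0, zero_mul] at h3
      have h4 : (1 / ((d : ℝ) + 1)) ≠ 0 := by positivity
      exact h4 (by exact_mod_cast h3.symm)
  apply le_antisymm
  · intro p hp
    have hpj : ∀ j, (∑ k, ((p.1 k : ℂ) * Complex.I * ⟪x k, x j⟫_ℂ) • x k) +
        ((p.2 j : ℂ) * Complex.I) • x j = 0 := fun j => congrFun hp j
    -- inner products with `x i`
    have hij : ∀ i j, (∑ k, (p.1 k : ℂ) * (⟪x i, x k⟫_ℂ * ⟪x k, x j⟫_ℂ)) +
        (p.2 j : ℂ) * ⟪x i, x j⟫_ℂ = 0 := by
      intro i j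
      have h3 := congrArg (fun z => ⟪x i, z⟫_ℂ) (hpj j)
      simp only [inner_add_right, inner_sum, inner_smul_right, inner_zero_right] at h3
      have h4 : Complex.I * ((∑ k, (p.1 k : ℂ) * (⟪x i, x k⟫_ℂ * ⟪x k, x j⟫_ℂ)) +
        (p.2 j : ℂ) * ⟪x i, x j⟫_ℂ) = 0 := by
        rw [← h3, mul_add, mul_sum]
        congr 1
        · refine sum_congr rfl fun k _ => ?_
          ring
        · ring
      exact (mul_eq_zero.mp h4).resolve_left Complex.I_ne_zero
    have hth : ∀ i j, p.2 i = p.2 j := by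
      intro i j
      have h3 := hij i j
      have h4 := congrArg conj (hij j i)
      rw [map_add, map_sum, map_zero, map_mul, Complex.conj_ofReal, inner_conj_symm] at h4
      have h5 : ∑ k, conj ((p.1 k : ℂ) * (⟪x j, x k⟫_ℂ * ⟪x k, x i⟫_ℂ)) =
          ∑ k, (p.1 k : ℂ) * (⟪x i, x k⟫_ℂ * ⟪x k, x j⟫_ℂ) := by
        refine sum_congr rfl fun k _ => ?_
        rw [map_mul, map_mul, Complex.conj_ofReal, inner_conj_symm, inner_conj_symm]
        ring
      rw [h5] at h4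
      have h6 : ((p.2 j : ℂ) - (p.2 i : ℂ)) * ⟪x i, x j⟫_ℂ = 0 := by
        linear_combination h3 - h4
      have h7 := (mul_eq_zero.mp h6).resolve_right (hne i j)
      have h8 : (p.2 j : ℂ) = (p.2 i : ℂ) := sub_eq_zero.mp h7
      exact_mod_cast h8.symm
    have hdiag : ∀ j, p.1 j * ((d : ℝ) / (d + 1)) + (∑ k, p.1 k) / (d + 1) + p.2 j = 0 := by
      intro j
      have h3 := hij j j
      rw [hjj, mul_one] at h3
      have h4 : ∀ k, (p.1 k : ℂ) * (⟪x j, x k⟫_ℂ * ⟪x k, x j⟫_ℂ) =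
          ((p.1 k * (1 / ((d : ℝ) + 1)) + (if j = k then p.1 k * ((d : ℝ) / (d + 1)) else 0) : ℝ) : ℂ) := by
        intro k
        by_cases hjk : j = k
        · subst hjk
          rw [if_pos rfl, hjj]
          have : p.1 j * (1 / ((d : ℝ) + 1)) + p.1 j * ((d : ℝ) / (d + 1)) = p.1 j := by
            field_simp; ring
          rw [this]; ring
        · rw [if_neg hjk, hpp j k hjk]
          push_cast; ring
      rw [sum_congr rfl fun k _ => h4 k, ← Complex.ofReal_sum, ← Complex.ofReal_add] at h3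
      have h5 : ∑ k, (p.1 k * (1 / ((d : ℝ) + 1)) +
          (if j = k then p.1 k * ((d : ℝ) / (d + 1)) else 0)) + p.2 j = 0 := by exact_mod_cast h3
      rw [sum_add_distrib, Finset.sum_ite_eq univ j, if_pos (mem_univ _), ← sum_mul] at h5
      rw [← h5]; ring
    rw [Submodule.mem_span_singleton]
    have hne' : Nonempty ι := by
      rw [← Fintype.card_pos_iff, hcard]; positivity
    obtain ⟨j0⟩ := hne'
    have ht : ∀ j, p.1 j = p.1 j0 := by
      intro j
      have h3 := hdiag j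
      have h4 := hdiag j0
      rw [hth j j0] at h3
      have h5 : (p.1 j - p.1 j0) * ((d : ℝ) / (d + 1)) = 0 := by linear_combination h3 - h4
      have h6 : ((d : ℝ) / (d + 1)) ≠ 0 := by positivity
      linarith [(mul_eq_zero.mp h5).resolve_right h6]
    refine ⟨p.1 j0, ?_⟩
    have hsum : ∑ k, p.1 k = (d : ℝ) ^ 2 * p.1 j0 := by
      rw [sum_congr rfl fun k _ => ht k, sum_const, card_univ, hcard, nsmul_eq_mul]
      push_cast; ring
    apply Prod.ext
    · ext j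
      show p.1 j0 * 1 = p.1 j
      rw [ht j, mul_one]
    · ext j
      show p.1 j0 * (-(d : ℝ)) = p.2 j
      have h3 := hdiag j
      rw [hsum, ht j] at h3
      have : p.1 j0 * ((d : ℝ) / (d + 1)) + (d : ℝ) ^ 2 * p.1 j0 / (d + 1) = p.1 j0 * d := by
        field_simp; ring
      linarith
  · rw [Submodule.span_singleton_le_iff_mem, LinearMap.mem_ker]
    ext1 j
    show (∑ k, (((1 : ℝ) : ℂ) * Complex.I * ⟪x k, x j⟫_ℂ) • x k) +
      (((-(d : ℝ) : ℝ) : ℂ) * Complex.I) • x j = 0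
    apply ext_inner_left ℂ
    intro u
    rw [inner_add_right, inner_sum, inner_smul_right, inner_zero_right]
    have h3 := FrameCrit.sic_frame hd hcard x h1 h2 u (x j)
    have h4 : ∑ k, ⟪u, (((1 : ℝ) : ℂ) * Complex.I * ⟪x k, x j⟫_ℂ) • x k⟫_ℂ =
        Complex.I * ∑ k, ⟪u, x k⟫_ℂ * ⟪x k, x j⟫_ℂ := by
      rw [mul_sum]
      refine sum_congr rfl fun k _ => ?_
      rw [inner_smul_right]
      push_cast; ring
    rw [h4, h3]
    push_cast
    ring

include hd hcard h1 h2 in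
/-- The space of the trivial infinitesimal deformations has dimension `2 d² - 1`. -/
theorem finrank_triv : Module.finrank ℝ (Triv x) + 1 = 2 * d ^ 2 := by
  have h := LinearMap.finrank_range_add_finrank_ker (par x)
  have hne : ((fun _ => 1, fun _ => -(d : ℝ)) : (ι → ℝ) × (ι → ℝ)) ≠ 0 := by
    have hne' : Nonempty ι := by
      rw [← Fintype.card_pos_iff, hcard]; positivity
    obtain ⟨j0⟩ := hne'
    intro h0
    have := congrFun (congrArg Prod.fst h0) j0
    exact one_ne_zero this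
  rw [range_par hd hcard x h1 h2, ker_par hd hcard x h1 h2, finrank_span_singleton hne,
    Module.finrank_prod, Module.finrank_pi, hcard] at h
  omega

end

end Pool.Agent.V11279.DF
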