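import Mathlib

set_option autoImplicit false

/-!
# The Hausdorff dimension of a level set is at most the dimension of the kernels
-/

namespace Pool.Agent.V11279.DF

open Set Filter Topology
open scoped NNReal ENNReal

theorem dimH_le_of_ker {E F : Type*} [NormedAddCommGroup E] [NormedSpace ℝ E]
    [FiniteDimensional ℝ E] [NormedAddCommGroup F] [NormedSpace ℝ F]
    (f : E → F) (f' : E → E →L[ℝ] F) (Z : Set E) (c : F) (hZ : ∀ x ∈ Z, f x = c)
    (hf : ∀ x ∈ Z, HasStrictFDerivAt f (f' x) x) (m : ℕ)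
    (hm : ∀ x ∈ Z, Module.finrank ℝ (LinearMap.ker (f' x).toLinearMap) ≤ m) :
    dimH Z ≤ m := by
  by_contra hcon
  push Not at hcon
  obtain ⟨x, hxZ, hx⟩ := exists_mem_nhdsWithin_lt_dimH_of_lt_dimH hcon
  set L := f' x with hL
  set K := LinearMap.ker L.toLinearMap with hK
  obtain ⟨P, hP⟩ := LinearMap.exists_leftInverse_of_injective K.subtype
    (LinearMap.ker_eq_bot.mpr K.injective_subtype)
  let Φ : E →ₗ[ℝ] F × K := L.toLinearMap.prod P
  have hΦ : LinearMap.ker Φ = ⊥ := by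
    rw [LinearMap.ker_eq_bot']
    intro v hv
    have h1 : L v = 0 := congrArg Prod.fst hv
    have h2 : P v = 0 := congrArg Prod.snd hv
    have h3 : P (K.subtype ⟨v, h1⟩) = ⟨v, h1⟩ := LinearMap.congr_fun hP ⟨v, h1⟩
    have h4 : P v = ⟨v, h1⟩ := h3
    rw [h2] at h4
    exact (congrArg Subtype.val h4).symm
  obtain ⟨C, hC0, hC⟩ := LinearMap.exists_antilipschitzWith Φ hΦ
  have hC' : ∀ v, ‖v‖ ≤ C * max ‖L v‖ ‖P v‖ := by
    intro v
    have := hC.le_mul_dist v 0
    simpa [Φ, dist_eq_norm, Prod.norm_def] using this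
  -- the neighbourhood
  have hstr := hf x hxZ
  have hε : (0 : ℝ) < 1 / (2 * C) := by
    have : (0 : ℝ) < C := by exact_mod_cast hC0
    positivity
  have hlo := hstr.isLittleO.def hε
  rw [nhds_prod_eq, eventually_iff, mem_prod_same_iff] at hlo
  obtain ⟨s, hs, hsub⟩ := hlo
  have hdim := hx (s ∩ Z) (inter_mem (mem_nhdsWithin_of_mem_nhds hs) self_mem_nhdsWithin)
  have hanti : ∀ y ∈ s ∩ Z, ∀ z ∈ s ∩ Z, ‖y - z‖ ≤ C * ‖P y - P z‖ := by
    intro y hy z hz
    have h1 : ‖f y - f z - L (y - z)‖ ≤ 1 / (2 * C) * ‖y - z‖ := hsub (mk_mem_prod hy.1 hz.1)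
    rw [hZ y hy.2, hZ z hz.2, sub_self, zero_sub, norm_neg] at h1
    have h2 := hC' (y - z)
    rw [map_sub P] at h2
    have hCpos : (0 : ℝ) < C := by exact_mod_cast hC0
    rcases le_total ‖L (y - z)‖ ‖P y - P z‖ with h3 | h3
    · rwa [max_eq_right h3] at h2
    · rw [max_eq_left h3] at h2
      have h4 : ‖y - z‖ ≤ 1 / 2 * ‖y - z‖ := by
        refine h2.trans ?_
        calc (C : ℝ) * ‖L (y - z)‖ ≤ C * (1 / (2 * C) * ‖y - z‖) :=
              mul_le_mul_of_nonneg_left h1 hCpos.le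
          _ = 1 / 2 * ‖y - z‖ := by field_simp
      have h5 : ‖y - z‖ = 0 := by
        have := norm_nonneg (y - z)
        linarith
      rw [h5]
      positivity
  let g : (s ∩ Z : Set E) → K := fun y => P y
  have hg : AntilipschitzWith C g := by
    refine AntilipschitzWith.of_le_mul_dist fun y z => ?_
    rw [Subtype.dist_eq, dist_eq_norm, dist_eq_norm]
    exact hanti y y.2 z z.2
  have h1 : dimH (s ∩ Z) ≤ m := by
    have h2 : dimH (s ∩ Z) = dimH (univ : Set (s ∩ Z : Set E)) := by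
      have := (isometry_subtype_coe (s := s ∩ Z)).dimH_image univ
      rw [image_univ, Subtype.range_coe] at this
      exact this
    rw [h2]
    refine (hg.le_dimH_image univ).trans ?_
    refine (dimH_mono (subset_univ _)).trans ?_
    rw [Real.dimH_univ_eq_finrank]
    exact_mod_cast hm x hxZ
  exact absurd hdim (not_lt.mpr h1)

end Pool.Agent.V11279.DF
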