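import Mathlib
import Pool.Agent.V11279.DF.C
import Pool.Agent.V11279.DF.D

set_option autoImplicit false
set_option linter.unusedSectionVars false

/-!
# The Hausdorff dimension of the set of the normalised Gram matrices of maximal ETFs
-/

namespace Pool.Agent.V11279.DF

open scoped InnerProductSpace ComplexConjugate Topology
open Finset Pool.Agent.H103R3

variable {d : ℕ} {ι : Type*} [Fintype ι] [DecidableEq ι]

/-- The tangent directions at `G` of the set of normalised Gram matrices. -/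
def Hs (d : ℕ) (o : ι) (G : ι → ι → ℂ) : Submodule ℝ (ι → ι → ℂ) where
  carrier := {H | (∀ i j, H j i = conj (H i j)) ∧ (∀ i j, (conj (G i j) * H i j).re = 0) ∧
    (∀ i j, ∑ k, (H i k * G k j + G i k * H k j) = (d : ℂ) * H i j) ∧ ∀ j, H o j = 0}
  add_mem' := by
    rintro a b ⟨a1, a2, a3, a4⟩ ⟨b1, b2, b3, b4⟩
    refine ⟨fun i j => ?_, fun i j => ?_, fun i j => ?_, fun j => ?_⟩
    · simp only [Pi.add_apply, map_add, a1 i j, b1 i j]
    · simp only [Pi.add_apply, mul_add, Complex.add_re, a2, b2, add_zero]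
    · simp only [Pi.add_apply]
      rw [mul_add, ← a3, ← b3, ← sum_add_distrib]
      refine sum_congr rfl fun k _ => ?_
      ring
    · simp only [Pi.add_apply, a4, b4, add_zero]
  zero_mem' := by
    refine ⟨fun i j => ?_, fun i j => ?_, fun i j => ?_, fun j => ?_⟩ <;> simp
  smul_mem' := by
    rintro c a ⟨a1, a2, a3, a4⟩
    refine ⟨fun i j => ?_, fun i j => ?_, fun i j => ?_, fun j => ?_⟩
    · simp only [Pi.smul_apply, Complex.real_smul, map_mul, Complex.conj_ofReal, a1 i j]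
    · simp only [Pi.smul_apply, Complex.real_smul]
      rw [mul_left_comm, Complex.re_ofReal_mul, a2, mul_zero]
    · simp only [Pi.smul_apply, Complex.real_smul]
      rw [mul_left_comm, ← a3, mul_sum]
      refine sum_congr rfl fun k _ => ?_
      ring
    · simp only [Pi.smul_apply, a4, smul_zero]

/-- The deformation which belongs to a tangent direction. -/
noncomputable def VH (d : ℕ) (x : ι → EuclideanSpace ℂ (Fin d)) :
    (ι → ι → ℂ) →ₗ[ℝ] (ι → EuclideanSpace ℂ (Fin d)) where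
  toFun H := fun j => ∑ k, ((1 / (d : ℂ)) * H k j) • x k
  map_add' a b := by
    ext1 j
    simp only [Pi.add_apply, mul_add, add_smul, sum_add_distrib]
  map_smul' c a := by
    ext1 j
    have h1 : ∀ z : EuclideanSpace ℂ (Fin d), c • z = (c : ℂ) • z := fun z =>
      RCLike.real_smul_eq_coe_smul (K := ℂ) c z
    simp only [Pi.smul_apply, Complex.real_smul, RingHom.id_apply]
    rw [h1, smul_sum]
    refine sum_congr rfl fun k _ => ?_
    rw [smul_smul]; congr 1; ring

section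
variable (hd : 0 < d) (hcard : Fintype.card ι = d ^ 2) (o : ι)
  (x : ι → EuclideanSpace ℂ (Fin d)) (h1 : ∀ k, ‖x k‖ = 1)
  (h2 : ∀ k l, k ≠ l → ‖⟪x k, x l⟫_ℂ‖ = 1 / Real.sqrt ((d : ℝ) + 1))

include hd in
theorem inner_VH (H : ι → ι → ℂ) (hH : H ∈ Hs d o fun i j => ⟪x i, x j⟫_ℂ) (i j : ι) :
    ⟪VH d x H i, x j⟫_ℂ + ⟪x i, VH d x H j⟫_ℂ = H i j := by
  obtain ⟨a1, a2, a3, a4⟩ := hH
  have hD : (d : ℂ) ≠ 0 := by exact_mod_cast hd.ne'
  have e1 : ⟪VH d x H i, x j⟫_ℂ = (1 / (d : ℂ)) * ∑ k, H i k * ⟪x k, x j⟫_ℂ := by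
    show ⟪∑ k, ((1 / (d : ℂ)) * H k i) • x k, x j⟫_ℂ = _
    rw [sum_inner, mul_sum]
    refine sum_congr rfl fun k _ => ?_
    rw [inner_smul_left, map_mul, map_div₀, map_one, Complex.conj_natCast, ← a1]
    ring
  have e2 : ⟪x i, VH d x H j⟫_ℂ = (1 / (d : ℂ)) * ∑ k, ⟪x i, x k⟫_ℂ * H k j := by
    show ⟪x i, ∑ k, ((1 / (d : ℂ)) * H k j) • x k⟫_ℂ = _
    rw [inner_sum, mul_sum]
    refine sum_congr rfl fun k _ => ?_
    rw [inner_smul_right]
    ring
  rw [e1, e2, ← mul_add, ← sum_add_distrib, a3]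
  field_simp

include hd in
theorem VH_mem (H : ι → ι → ℂ) (hH : H ∈ Hs d o fun i j => ⟪x i, x j⟫_ℂ) :
    VH d x H ∈ Deform x := by
  intro i j
  rw [inner_VH hd o x H hH, ← inner_conj_symm (x j) (x i)]
  exact hH.2.1 i j

include hd h1 h2 in
theorem VH_triv (H : ι → ι → ℂ) (hH : H ∈ Hs d o fun i j => ⟪x i, x j⟫_ℂ)
    (hT : VH d x H ∈ Triv x) : H = 0 := by
  obtain ⟨A, θ, hA, hv⟩ := hT
  have e : ∀ i j, H i j = (((θ j - θ i : ℝ) : ℂ) * Complex.I) * ⟪x i, x j⟫_ℂ := by
    intro i j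
    rw [← inner_VH hd o x H hH i j, hv i, hv j, inner_add_left, inner_add_right, inner_smul_left,
      inner_smul_right, hA, map_mul, Complex.conj_ofReal, Complex.conj_I]
    push_cast
    ring
  have hne : ∀ j, ⟪x o, x j⟫_ℂ ≠ 0 := by
    intro j h0
    by_cases hjk : o = j
    · subst hjk
      rw [inner_self_eq_norm_sq_to_K, h1] at h0
      simp at h0
    · have h3 := h2 o j hjk
      rw [h0, norm_zero] at h3
      have h4 : (1 / Real.sqrt ((d : ℝ) + 1)) ≠ 0 := by positivity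
      exact h4 h3.symm
  have hθ : ∀ j, θ j - θ o = 0 := by
    intro j
    have h3 := e o j
    rw [hH.2.2.2 j] at h3
    have h4 := (mul_eq_zero.mp h3.symm).resolve_right (hne j)
    have h5 := (mul_eq_zero.mp h4).resolve_right Complex.I_ne_zero
    exact_mod_cast h5
  ext i j
  rw [e i j]
  have : θ j - θ i = 0 := by linarith [hθ i, hθ j]
  rw [this]
  simp

include hcard h1 h2 in
theorem finrank_Hs_le (hd2 : 2 ≤ d) :
    Module.finrank ℝ (Hs d o fun i j => ⟪x i, x j⟫_ℂ) ≤ 2 * (d - 1) * (d - 2) := by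
  have hd : 0 < d := by omega
  let Ψ : ((Hs d o fun i j => ⟪x i, x j⟫_ℂ) × Triv x) →ₗ[ℝ] (ι → EuclideanSpace ℂ (Fin d)) :=
    ((VH d x).comp (Submodule.subtype _)).coprod (Triv x).subtype
  have hΨ : ∀ p, Ψ p ∈ Deform x := by
    rintro ⟨H, t⟩
    show VH d x H + (t : ι → EuclideanSpace ℂ (Fin d)) ∈ Deform x
    exact Submodule.add_mem _ (VH_mem hd o x _ H.2) (triv_le_deform x t.2)
  have hinj : Function.Injective (LinearMap.codRestrict (Deform x) Ψ hΨ) := by
    rw [injective_iff_map_eq_zero]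
    rintro ⟨H, t⟩ h0
    have h3 : VH d x H + (t : ι → EuclideanSpace ℂ (Fin d)) = 0 := congrArg Subtype.val h0
    have h4 : VH d x H ∈ Triv x := by
      have : VH d x H = -(t : ι → EuclideanSpace ℂ (Fin d)) := by
        rw [eq_neg_iff_add_eq_zero]; exact h3
      rw [this]
      exact Submodule.neg_mem _ t.2
    have h5 : (H : ι → ι → ℂ) = 0 := VH_triv hd o x h1 h2 _ H.2 h4
    have h6 : H = 0 := Subtype.ext h5
    have h7 : (t : ι → EuclideanSpace ℂ (Fin d)) = 0 := by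
      rw [h5, map_zero, zero_add] at h3
      exact h3
    have h8 : t = 0 := Subtype.ext h7
    rw [h6, h8]
    rfl
  have h3 := LinearMap.finrank_le_finrank_of_injective hinj
  rw [Module.finrank_prod] at h3
  have h4 := finrank_triv hd hcard x h1 h2
  have h5 := finrank_deform_le hd2 hcard x h1 h2
  obtain ⟨e, rfl⟩ : ∃ e, d = e + 2 := ⟨d - 2, by omega⟩
  have e1 : e + 2 - 1 = e + 1 := by omega
  have e2 : e + 2 - 2 = e := by omega
  rw [e1] at h5 ⊢
  rw [e2]
  nlinarith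

end

/-- The defining map of the normalised Gram matrices. -/
noncomputable def ff (d : ℕ) (o : ι) (G : ι → ι → ℂ) :
    ((ι → ι → ℂ) × (ι → ι → ℂ)) × ((ι → ι → ℂ) × (ι → ℂ)) :=
  ((fun i j => G j i - conj (G i j), fun i j => G i j * conj (G i j)),
    (fun i j => ∑ k, G i k * G k j - (d : ℂ) * G i j, fun j => G o j))

theorem contDiff_ff (d : ℕ) (o : ι) : ContDiff ℝ 1 (ff (ι := ι) d o) := by
  have hG : ∀ i j : ι, ContDiff ℝ 1 (fun G : ι → ι → ℂ => G i j) := by
    intro i j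
    fun_prop
  have hc : ∀ i j : ι, ContDiff ℝ 1 (fun G : ι → ι → ℂ => conj (G i j)) := by
    intro i j
    exact Complex.conjCLE.contDiff.comp (hG i j)
  unfold ff
  refine ContDiff.prodMk (ContDiff.prodMk ?_ ?_) (ContDiff.prodMk ?_ ?_)
  · exact contDiff_pi.mpr fun i => contDiff_pi.mpr fun j => (hG j i).sub (hc i j)
  · exact contDiff_pi.mpr fun i => contDiff_pi.mpr fun j => (hG i j).mul (hc i j)
  · exact contDiff_pi.mpr fun i => contDiff_pi.mpr fun j =>
      (ContDiff.sum fun k _ => (hG i k).mul (hG k j)).sub (contDiff_const.mul (hG i j))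
  · exact contDiff_pi.mpr fun j => hG o j

theorem ker_le (d : ℕ) (o : ι) (G : ι → ι → ℂ) :
    LinearMap.ker (fderiv ℝ (ff d o) G).toLinearMap ≤ Hs d o G := by
  intro H hH
  have hH' : fderiv ℝ (ff d o) G H = 0 := hH
  have hder : HasDerivAt (fun t : ℝ => ff d o (G + t • H)) 0 0 := by
    have h1 : HasFDerivAt (ff d o) (fderiv ℝ (ff d o) G) (G + (0 : ℝ) • H) := by
      rw [zero_smul, add_zero]
      exact ((contDiff_ff d o).differentiable (by norm_num) G).hasFDerivAt
    have h2 : HasDerivAt (fun t : ℝ => G + t • H) H 0 := by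
      have := ((hasDerivAt_id (0 : ℝ)).smul_const H).const_add G
      simpa using this
    have h3 := h1.comp_hasDerivAt (0 : ℝ) h2
    rw [hH'] at h3
    exact h3
  have hlin : ∀ i j, HasDerivAt (fun t : ℝ => G i j + (t : ℂ) * H i j) (H i j) 0 := by
    intro i j
    have h2 : HasDerivAt (fun t : ℝ => (t : ℂ)) 1 0 := Complex.ofRealCLM.hasDerivAt (x := (0 : ℝ))
    have := (h2.mul_const (H i j)).const_add (G i j)
    simpa using this
  have hconj : ∀ i j, HasDerivAt (fun t : ℝ => conj (G i j + (t : ℂ) * H i j)) (conj (H i j)) 0 := by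
    intro i j
    have h3 := Complex.conjCLE.toContinuousLinearMap.hasFDerivAt.comp_hasDerivAt (0 : ℝ) (hlin i j)
    exact h3
  have h11 := hder.fst.fst
  have h12 := hder.fst.snd
  have h21 := hder.snd.fst
  have h22 := hder.snd.snd
  refine ⟨fun i j => ?_, fun i j => ?_, fun i j => ?_, fun j => ?_⟩
  · have h3 := hasDerivAt_pi.mp (hasDerivAt_pi.mp h11 i) j
    have h4 : HasDerivAt (fun t : ℝ => (G j i + (t : ℂ) * H j i) - conj (G i j + (t : ℂ) * H i j))
        (H j i - conj (H i j)) 0 := (hlin j i).sub (hconj i j)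
    have h5 := h3.unique h4
    have h6 : (0 : ℂ) = H j i - conj (H i j) := h5
    exact (sub_eq_zero.mp h6.symm)
  · have h3 := hasDerivAt_pi.mp (hasDerivAt_pi.mp h12 i) j
    have h4 : HasDerivAt (fun t : ℝ => (G i j + (t : ℂ) * H i j) * conj (G i j + (t : ℂ) * H i j))
        (H i j * conj (G i j + ((0 : ℝ) : ℂ) * H i j) + (G i j + ((0 : ℝ) : ℂ) * H i j) * conj (H i j)) 0 :=
      (hlin i j).mul (hconj i j)
    have h5 : (0 : ℂ) = H i j * conj (G i j + ((0 : ℝ) : ℂ) * H i j) +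
      (G i j + ((0 : ℝ) : ℂ) * H i j) * conj (H i j) := h3.unique h4
    rw [Complex.ofReal_zero, zero_mul, add_zero] at h5
    have h6 : H i j * conj (G i j) + G i j * conj (H i j) =
        conj (G i j) * H i j + conj (conj (G i j) * H i j) := by
      rw [map_mul, Complex.conj_conj]; ring
    rw [h6, Complex.add_conj] at h5
    have h7 : (2 * (conj (G i j) * H i j).re : ℝ) = 0 := by exact_mod_cast h5.symm
    linarith
  · have h3 := hasDerivAt_pi.mp (hasDerivAt_pi.mp h21 i) j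
    have h4 : HasDerivAt (fun t : ℝ => ∑ k, (G i k + (t : ℂ) * H i k) * (G k j + (t : ℂ) * H k j) -
        (d : ℂ) * (G i j + (t : ℂ) * H i j))
        (∑ k, (H i k * (G k j + ((0 : ℝ) : ℂ) * H k j) + (G i k + ((0 : ℝ) : ℂ) * H i k) * H k j) -
          (d : ℂ) * H i j) 0 := by
      refine HasDerivAt.sub ?_ ((hlin i j).const_mul (d : ℂ))
      exact HasDerivAt.fun_sum fun k _ => (hlin i k).mul (hlin k j)
    have h5 : (0 : ℂ) = ∑ k, (H i k * (G k j + ((0 : ℝ) : ℂ) * H k j) +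
      (G i k + ((0 : ℝ) : ℂ) * H i k) * H k j) - (d : ℂ) * H i j := h3.unique h4
    simp only [Complex.ofReal_zero, zero_mul, add_zero] at h5
    exact (sub_eq_zero.mp h5.symm)
  · have h3 := hasDerivAt_pi.mp h22 j
    have h5 : (0 : ℂ) = H o j := h3.unique (hlin o j)
    exact h5.symm

/-- The set of the Gram matrices of the maximal ETFs for which all inner products with `x o` are
positive. -/
def NormGram (d : ℕ) (o : ι) : Set (ι → ι → ℂ) :=
  {G | ∃ x : ι → EuclideanSpace ℂ (Fin d), (∀ k, ‖x k‖ = 1) ∧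
    (∀ k l, k ≠ l → ‖⟪x k, x l⟫_ℂ‖ = 1 / Real.sqrt ((d : ℝ) + 1)) ∧
    (∀ j, 0 < (⟪x o, x j⟫_ℂ).re ∧ (⟪x o, x j⟫_ℂ).im = 0) ∧ ∀ i j, G i j = ⟪x i, x j⟫_ℂ}

theorem dimH_normGram (hd : 2 ≤ d) (hcard : Fintype.card ι = d ^ 2) (o : ι) :
    dimH (NormGram d o) ≤ ((2 * (d - 1) * (d - 2) : ℕ) : ENNReal) := by
  have hd0 : 0 < d := by omega
  let c : ((ι → ι → ℂ) × (ι → ι → ℂ)) × ((ι → ι → ℂ) × (ι → ℂ)) :=
    ((fun _ _ => 0, fun i j => if i = j then 1 else ((1 / ((d : ℝ) + 1) : ℝ) : ℂ)),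
      (fun _ _ => 0, fun j => if o = j then 1 else ((1 / Real.sqrt ((d : ℝ) + 1) : ℝ) : ℂ)))
  refine dimH_le_of_ker (ff d o) (fun G => fderiv ℝ (ff d o) G) (NormGram d o) c ?_ ?_ _ ?_
  · rintro G ⟨x, h1, h2, h3, hG⟩
    have hjj : ∀ j, ⟪x j, x j⟫_ℂ = 1 := by
      intro j
      rw [inner_self_eq_norm_sq_to_K, h1]; simp
    have hpp : ∀ j k, j ≠ k → ⟪x j, x k⟫_ℂ * ⟪x k, x j⟫_ℂ = ((1 / ((d : ℝ) + 1) : ℝ) : ℂ) := by
      intro j k hjk
      rw [← inner_conj_symm (x k) (x j), Complex.mul_conj, Complex.normSq_eq_norm_sq, h2 j k hjk,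
        div_pow, one_pow, Real.sq_sqrt (by positivity)]
    refine Prod.ext (Prod.ext ?_ ?_) (Prod.ext ?_ ?_)
    · ext i j
      show G j i - conj (G i j) = 0
      rw [hG, hG, inner_conj_symm, sub_self]
    · ext i j
      show G i j * conj (G i j) = if i = j then 1 else ((1 / ((d : ℝ) + 1) : ℝ) : ℂ)
      rw [hG, inner_conj_symm]
      by_cases hij : i = j
      · subst hij; rw [if_pos rfl, hjj, one_mul]
      · rw [if_neg hij, hpp i j hij]
    · ext i j
      show ∑ k, G i k * G k j - (d : ℂ) * G i j = 0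
      simp only [hG]
      rw [FrameCrit.sic_frame hd0 hcard x h1 h2, sub_self]
    · ext j
      show G o j = if o = j then 1 else ((1 / Real.sqrt ((d : ℝ) + 1) : ℝ) : ℂ)
      rw [hG]
      by_cases hij : o = j
      · subst hij; rw [if_pos rfl, hjj]
      · rw [if_neg hij, ← h2 o j hij]
        have h4 := (h3 j)
        have h5 : ⟪x o, x j⟫_ℂ = (((⟪x o, x j⟫_ℂ).re : ℝ) : ℂ) := by
          apply Complex.ext
          · simp
          · simp [h4.2]
        have h6 : ‖⟪x o, x j⟫_ℂ‖ = (⟪x o, x j⟫_ℂ).re := by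
          conv_lhs => rw [h5]
          rw [Complex.norm_real, Real.norm_eq_abs, abs_of_pos h4.1]
        rw [h6]
        exact h5
  · intro G _
    exact (contDiff_ff d o).contDiffAt.hasStrictFDerivAt (by norm_num)
  · rintro G ⟨x, h1, h2, h3, hG⟩
    have hG' : G = fun i j => ⟪x i, x j⟫_ℂ := by
      ext i j; exact hG i j
    rw [hG']
    exact (Submodule.finrank_mono (ker_le d o _)).trans (finrank_Hs_le hcard o x h1 h2 hd)

end Pool.Agent.V11279.DF
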